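import Pool.Agent.H4.CST.LIN

/-!
Row HEN of `cst_modules`: the expansion of `y` at `x + (Δ x) ^ 2 T`, with bounded coefficients.
-/

open Polynomial

namespace Pool.Agent.H4.CST

open Pool.Agent.H51.CST

section

variable {k : Type} [Field k] {S : Type} [CommRing S] [Algebra k S] {x y z : S} {e b : ℕ}

theorem bdC_add {a : ℕ} {P Q : S[X]} (hP : BdC k x y z e b a P)
    (hQ : BdC k x y z e b a Q) : BdC k x y z e b a (P + Q) := by
  intro m
  rw [coeff_add]
  exact Submodule.add_mem _ (hP m) (hQ m)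

theorem bdC_sub {a : ℕ} {P Q : S[X]} (hP : BdC k x y z e b a P)
    (hQ : BdC k x y z e b a Q) : BdC k x y z e b a (P - Q) := by
  intro m
  rw [coeff_sub]
  exact Submodule.sub_mem _ (hP m) (hQ m)

theorem bdC_zero {a : ℕ} : BdC k x y z e b a (0 : S[X]) := by
  intro m
  rw [coeff_zero]
  exact Submodule.zero_mem _

theorem bdC_sum {ι : Type} (s : Finset ι) {a : ℕ} (P : ι → S[X])
    (hP : ∀ i ∈ s, BdC k x y z e b a (P i)) : BdC k x y z e b a (∑ i ∈ s, P i) := by
  intro m
  rw [finsetSum_coeff]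
  exact Submodule.sum_mem _ fun i hi => hP i hi m

theorem bdC_X_pow (hFIL : T_FIL) (n : ℕ) : BdC k x y z e 0 0 ((X : S[X]) ^ n) := by
  intro m
  rw [coeff_X_pow]
  split_ifs with h
  · have h2 := (hFIL k S x y z e).2.2.1 1
    rw [map_one] at h2
    simpa using h2
  · exact Submodule.zero_mem _

end

/-- the bounds -/
def cseq (d e del v : ℕ) : ℕ → ℕ
  | 0 => 0
  | n + 1 => cseq d e del v n +
      (v + e * (2 * del + 1) + d * (e + del + cseq d e del v n)) + e * d

/-- HEN -/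
theorem pf_HEN (hFIL : T_FIL) (hRED : T_RED) (hCNV : T_CNV) (hHE1 : T_HE1) : T_HEN := by
  intro d e del v M hd he
  refine ⟨e + del + cseq d e del v M, ?_⟩
  intro k _ D Del V hDel hdel hV0 hV hVD
  obtain ⟨δ, hδ⟩ : ∃ δ : AdjoinRoot D.mu, δ = aeval (xR D.mu) Del := ⟨_, rfl⟩
  obtain ⟨hmono, hmul, hC, hx, hy, -, hg, -⟩ := hFIL k (AdjoinRoot D.mu) (xR D.mu) (yR D.mu) 1 e
  obtain ⟨-, -, -, hc4, -, -, hc7⟩ := hCNV k d e D hd
  have hred := hRED k d e D
  obtain ⟨h0, hstep⟩ := hHE1 k d e D Del V hVD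
  rw [← hδ] at h0 hstep
  have hδm : δ ∈ Fil k (xR D.mu) (yR D.mu) 1 e del := by
    rw [hδ]
    exact hg Del del hdel
  -- the bound for the shifted coefficients
  have hXh : BdC k (xR D.mu) (yR D.mu) 1 e 0 (2 * del + 1)
      (C (xR D.mu) + C (δ ^ 2) * X : (AdjoinRoot D.mu)[X]) := by
    refine bdC_add ?_ ?_
    · exact bdC_mono hFIL (by omega) (bdC_C hFIL hx)
    · have h1 : BdC k (xR D.mu) (yR D.mu) 1 e 0 (2 * del) (C (δ ^ 2)) :=
        bdC_C hFIL (fil_pow hFIL hδm 2)
      have h2 := bdC_mul hFIL h1 (bdC_X_pow (k := k) (x := xR D.mu) (y := yR D.mu)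
        (z := (1 : AdjoinRoot D.mu)) (e := e) hFIL 1)
      rw [pow_one] at h2
      exact bdC_mono hFIL (by omega) h2
  have hSh : ∀ g : k[X], g.natDegree ≤ e →
      BdC k (xR D.mu) (yR D.mu) 1 e 0 (e * (2 * del + 1)) ((Sh D.mu Del).toRingHom g) := by
    intro g hge
    have h1 : (Sh D.mu Del).toRingHom g = ∑ i ∈ Finset.range (g.natDegree + 1),
        C (algebraMap k (AdjoinRoot D.mu) (g.coeff i)) *
          (C (xR D.mu) + C (δ ^ 2) * X) ^ i := by
      have h2 : (Sh D.mu Del).toRingHom g =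
          aeval (C (xR D.mu) + C (δ ^ 2) * X : (AdjoinRoot D.mu)[X]) g := by
        rw [hδ]
        rfl
      rw [h2, aeval_eq_sum_range]
      refine Finset.sum_congr rfl fun i _ => ?_
      rw [Algebra.smul_def]
      rfl
    rw [h1]
    refine bdC_sum _ _ fun i hi => ?_
    rw [Finset.mem_range] at hi
    have h3 := bdC_mul hFIL (bdC_C (b := 0) hFIL (hC (g.coeff i))) (bdC_pow hFIL hXh i)
    refine bdC_mono hFIL ?_ h3
    rw [zero_add]
    exact Nat.mul_le_mul_right _ (by omega)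
  have hev : ∀ (w : (AdjoinRoot D.mu)[X]) (a : ℕ), BdC k (xR D.mu) (yR D.mu) 1 e 0 a w →
      BdC k (xR D.mu) (yR D.mu) 1 e 0 (e * (2 * del + 1) + d * a)
        ((D.mu.map (Sh D.mu Del).toRingHom).eval w) := by
    intro w a hw
    rw [eval_map, eval₂_eq_sum_range]
    refine bdC_sum _ _ fun i hi => ?_
    rw [Finset.mem_range, D.deg] at hi
    refine bdC_mono hFIL ?_ (bdC_mul hFIL (hSh _ (D.bd i)) (bdC_pow hFIL hw i))
    exact Nat.add_le_add_left (Nat.mul_le_mul_right _ (by omega)) _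
  -- the induction
  have hind : ∀ n : ℕ, ∃ s E : (AdjoinRoot D.mu)[X], X ∣ s ∧
      BdC k (xR D.mu) (yR D.mu) 1 e 0 (cseq d e del v n) s ∧
      C V * (D.mu.map (Sh D.mu Del).toRingHom).eval (C (yR D.mu) + C δ * s) =
        C (δ ^ 2) * X ^ (n + 1) * E := by
    intro n
    induction n with
    | zero =>
      obtain ⟨E, hE⟩ := h0
      refine ⟨0, E, dvd_zero _, bdC_zero, ?_⟩
      rw [mul_zero, add_zero, zero_add, pow_one]
      exact hE
    | succ n ih =>
      obtain ⟨s, E, hXs, hs, hE⟩ := ih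
      obtain ⟨E', hE'⟩ := hstep n s E hXs hE
      refine ⟨s - C (E.coeff 0) * X ^ (n + 1), E', ?_, ?_, hE'⟩
      · refine dvd_sub hXs (Dvd.dvd.mul_left ?_ _)
        exact dvd_pow_self X (Nat.succ_ne_zero n)
      · -- the coefficient
        obtain ⟨Nn, hNn⟩ : ∃ Nn, Nn = v + e * (2 * del + 1) +
            d * (e + del + cseq d e del v n) := ⟨_, rfl⟩
        have h1 : BdC k (xR D.mu) (yR D.mu) 1 e 0 (e + del + cseq d e del v n)
            (C (yR D.mu) + C δ * s) := by
          refine bdC_add (bdC_mono hFIL (by omega) (bdC_C hFIL hy)) ?_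
          exact bdC_mono hFIL (by omega) (bdC_mul hFIL (bdC_C hFIL hδm) hs)
        have h2 := bdC_mul hFIL (bdC_C (b := 0) hFIL hV) (hev _ _ h1)
        rw [← add_assoc, ← hNn, hE] at h2
        have h3 := h2 (n + 1)
        have h4 : (C (δ ^ 2) * X ^ (n + 1) * E : (AdjoinRoot D.mu)[X]).coeff (n + 1) =
            δ ^ 2 * E.coeff 0 := by
          rw [mul_assoc, coeff_C_mul]
          congr 1
          have h5 := coeff_X_pow_mul E (n + 1) 0
          rwa [zero_add] at h5
        rw [h4, zero_mul, add_zero] at h3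
        have h6 : δ ^ 2 * E.coeff 0 = aeval (xR D.mu) (Del ^ 2) * E.coeff 0 := by
          rw [map_pow, hδ]
        rw [h6] at h3
        have h7 := hred Nn _ hd he h3
        have h8 : ∀ j, (crd D.monic (E.coeff 0) j).natDegree ≤ Nn := by
          intro j
          have h9 := h7 j
          rw [hc4] at h9
          by_cases hz : crd D.monic (E.coeff 0) j = 0
          · rw [hz, natDegree_zero]
            exact Nat.zero_le _
          · rw [natDegree_mul (pow_ne_zero 2 hDel) hz] at h9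
            omega
        have h10 : E.coeff 0 ∈ Fil k (xR D.mu) (yR D.mu) 1 e (Nn + e * d) :=
          hc7 Nn (E.coeff 0) h8
        have h11 : cseq d e del v (n + 1) = cseq d e del v n + Nn + e * d := by
          rw [hNn]
          rfl
        rw [h11]
        refine bdC_sub (bdC_mono hFIL (by omega) hs) ?_
        exact bdC_mono hFIL (by omega)
          (bdC_mul hFIL (bdC_C hFIL h10) (bdC_X_pow hFIL (n + 1)))
  obtain ⟨s, E, hXs, hs, hE⟩ := hind M
  refine ⟨C (yR D.mu) + C δ * s, ?_, ?_, ?_⟩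
  · have h1 : BdC k (xR D.mu) (yR D.mu) 1 e 0 (e + del + cseq d e del v M)
        (C (yR D.mu) + C δ * s) := by
      refine bdC_add (bdC_mono hFIL (by omega) (bdC_C hFIL hy)) ?_
      exact bdC_mono hFIL (by omega) (bdC_mul hFIL (bdC_C hFIL hδm) hs)
    intro m
    have h2 := h1 m
    rw [zero_mul, add_zero] at h2
    exact h2
  · obtain ⟨t, rfl⟩ := hXs
    rw [coeff_add, coeff_C_zero, coeff_C_mul, mul_coeff_zero, coeff_X_zero, zero_mul, mul_zero,
      add_zero]
  · haveI := D.dom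
    rw [X_pow_dvd_iff]
    intro m hm
    have h1 : (C V * (D.mu.map (Sh D.mu Del).toRingHom).eval (C (yR D.mu) + C δ * s) :
        (AdjoinRoot D.mu)[X]).coeff m = 0 := by
      rw [hE]
      have h2 : (X : (AdjoinRoot D.mu)[X]) ^ (M + 1) ∣ C (δ ^ 2) * X ^ (M + 1) * E :=
        Dvd.dvd.mul_right (Dvd.intro_left _ rfl) _
      exact (X_pow_dvd_iff.1 h2) m (by omega)
    rw [coeff_C_mul] at h1
    exact (mul_eq_zero.1 h1).resolve_left hV0

end Pool.Agent.H4.CST
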