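import Pool.Agent.H51.CST.Targets

/-!
Row LIN of `cst_modules`: the auxiliary function exists (linear algebra).
-/

open Polynomial

namespace Pool.Agent.H4.CST

open Pool.Agent.H51.CST

/-- the coefficient of `X ^ m` has weight at most `a + b m` -/
def BdC (k : Type) [Field k] {S : Type} [CommRing S] [Algebra k S] (x y z : S) (e b a : ℕ)
    (Q : S[X]) : Prop := ∀ m, Q.coeff m ∈ Fil k x y z e (a + b * m)

section

variable {k : Type} [Field k] {S : Type} [CommRing S] [Algebra k S] {x y z : S} {e b : ℕ}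

theorem bdC_mono (hFIL : T_FIL) {a a' : ℕ} (h : a ≤ a') {Q : S[X]} (hQ : BdC k x y z e b a Q) :
    BdC k x y z e b a' Q :=
  fun m => (hFIL k S x y z e).1 _ _ (by omega) (hQ m)

theorem bdC_mul (hFIL : T_FIL) {a a' : ℕ} {P Q : S[X]} (hP : BdC k x y z e b a P)
    (hQ : BdC k x y z e b a' Q) : BdC k x y z e b (a + a') (P * Q) := by
  intro m
  rw [coeff_mul]
  refine Submodule.sum_mem _ fun p hp => ?_
  have hp := Finset.HasAntidiagonal.mem_antidiagonal.1 hp
  have h := (hFIL k S x y z e).2.1 _ _ _ _ (hP p.1) (hQ p.2)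
  refine (hFIL k S x y z e).1 _ _ (le_of_eq ?_) h
  rw [← hp]
  ring

theorem bdC_C (hFIL : T_FIL) {a : ℕ} {u : S} (hu : u ∈ Fil k x y z e a) :
    BdC k x y z e b a (C u) := by
  intro m
  rw [coeff_C]
  split_ifs with h
  · exact (hFIL k S x y z e).1 _ _ (by omega) hu
  · exact Submodule.zero_mem _

theorem bdC_one (hFIL : T_FIL) : BdC k x y z e b 0 (1 : S[X]) := by
  have h := (hFIL k S x y z e).2.2.1 1
  rw [map_one] at h
  have h2 := bdC_C (b := b) hFIL h
  rwa [C_1] at h2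

theorem bdC_pow (hFIL : T_FIL) {a : ℕ} {Q : S[X]} (hQ : BdC k x y z e b a Q) (i : ℕ) :
    BdC k x y z e b (i * a) (Q ^ i) := by
  induction i with
  | zero => simpa using bdC_one hFIL
  | succ i ih =>
    rw [pow_succ]
    have h := bdC_mul hFIL ih hQ
    have h2 : i * a + a = (i + 1) * a := by ring
    rwa [h2] at h

theorem fil_pow (hFIL : T_FIL) {a : ℕ} {u : S} (hu : u ∈ Fil k x y z e a) (i : ℕ) :
    u ^ i ∈ Fil k x y z e (i * a) := by
  induction i with
  | zero =>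
    have h := (hFIL k S x y z e).2.2.1 1
    rw [map_one] at h
    simpa using h
  | succ i ih =>
    rw [pow_succ]
    have h := (hFIL k S x y z e).2.1 _ _ _ _ ih hu
    have h2 : i * a + a = (i + 1) * a := by ring
    rwa [h2] at h

theorem fil_one_z {n : ℕ} {u : S} (hu : u ∈ Fil k x y 1 e n) :
    u ∈ Fil k x y z e n := by
  have hle : Fil k x y 1 e n ≤ Fil k x y z e n := by
    unfold Fil
    rw [Submodule.span_le]
    rintro v ⟨i, j, l, h, rfl⟩
    apply Submodule.subset_span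
    exact ⟨i, j, 0, by omega, by simp⟩
  exact hle hu

end

/-- LIN -/
theorem pf_LIN (hFIL : T_FIL) (hRD2 : T_RD2) : T_LIN := by
  intro k _ d e D Del r del M C0 A B hd he hDel hr hlt
  obtain ⟨N, hN⟩ : ∃ N, N = A + 2 * del * M + d * C0 + B + e * d := ⟨_, rfl⟩
  obtain ⟨hfin, hrk⟩ := hRD2 k d e D N hd he
  have hF := hFIL k (R2 D.mu) (x2 D.mu) (y2 D.mu) (z2 D.mu) e
  obtain ⟨hmono, hmul, hC, hx, hy, hz, hg, -⟩ := hF
  -- the summands
  obtain ⟨G, hG⟩ : ∃ G : Fin A × Fin d × Fin B × Fin d → (R2 D.mu)[X], G = fun s =>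
    (C (x2 D.mu) + C (aeval (x2 D.mu) Del ^ 2) * X) ^ (s.1 : ℕ) *
    (r.map (AdjoinRoot.of (mu2 D.mu))) ^ (s.2.1 : ℕ) *
    C (x2 D.mu ^ (s.2.2.1 : ℕ) * z2 D.mu ^ (s.2.2.2 : ℕ)) := ⟨_, rfl⟩
  have hb1 : BdC k (x2 D.mu) (y2 D.mu) (z2 D.mu) e (2 * del) 1
      (C (x2 D.mu) + C (aeval (x2 D.mu) Del ^ 2) * X) := by
    intro m
    rw [coeff_add, coeff_C_mul, coeff_X, coeff_C]
    refine Submodule.add_mem _ ?_ ?_
    · split_ifs with h
      · exact hmono _ _ (by omega) hx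
      · exact Submodule.zero_mem _
    · split_ifs with h
      · rw [mul_one]
        have h2 := hg Del del hDel
        have h3 := fil_pow hFIL h2 2
        refine hmono _ _ ?_ h3
        subst h
        omega
      · rw [mul_zero]
        exact Submodule.zero_mem _
  have hb2 : BdC k (x2 D.mu) (y2 D.mu) (z2 D.mu) e (2 * del) C0
      (r.map (AdjoinRoot.of (mu2 D.mu))) := by
    intro m
    rw [coeff_map]
    have h2 := (hFIL k (AdjoinRoot D.mu) (xR D.mu) (yR D.mu) 1 e).2.2.2.2.2.2.2 (R2 D.mu)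
      (AdjoinRoot.ofAlgHom k (mu2 D.mu)) C0 (r.coeff m) (hr m)
    rw [map_one] at h2
    exact hmono _ _ (Nat.le_add_right _ _) (fil_one_z h2)
  have hmem : ∀ (s : Fin A × Fin d × Fin B × Fin d) (m : ℕ), m < M →
      (G s).coeff m ∈ F2 D.mu e N := by
    intro s m hm
    have h1 := bdC_pow hFIL hb1 (s.1 : ℕ)
    have h2 := bdC_pow hFIL hb2 (s.2.1 : ℕ)
    have h3 := bdC_C (b := 2 * del) hFIL (hmul _ _ _ _ (fil_pow hFIL hx (s.2.2.1 : ℕ))
      (fil_pow hFIL hz (s.2.2.2 : ℕ)))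
    have h4 := bdC_mul hFIL (bdC_mul hFIL h1 h2) h3 m
    rw [hG]
    refine hmono _ _ ?_ h4
    rw [hN]
    have e1 : (s.1 : ℕ) * 1 ≤ A := by
      rw [mul_one]
      exact s.1.2.le
    have e2 : (s.2.1 : ℕ) * C0 ≤ d * C0 := Nat.mul_le_mul_right _ s.2.1.2.le
    have e3 : (s.2.2.1 : ℕ) * 1 ≤ B := by
      rw [mul_one]
      exact s.2.2.1.2.le
    have e4 : (s.2.2.2 : ℕ) * e ≤ e * d := by
      rw [mul_comm]
      exact Nat.mul_le_mul_left _ s.2.2.2.2.le
    have e5 : 2 * del * m ≤ 2 * del * M := Nat.mul_le_mul_left _ hm.le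
    omega
  -- the linear map
  obtain ⟨g, hgd⟩ : ∃ g : Fin A × Fin d × Fin B × Fin d → (Fin M → F2 D.mu e N),
      g = fun s m => ⟨(G s).coeff m, hmem s m m.2⟩ := ⟨_, rfl⟩
  have hkerne : LinearMap.ker (Fintype.linearCombination k g) ≠ ⊥ := by
    apply LinearMap.ker_ne_bot_of_finrank_lt
    have h1 : Module.finrank k (Fin M → F2 D.mu e N) ≤ M * ((N + 1) * (d * (d - 1))) := by
      rw [Module.finrank_pi_fintype, Finset.sum_const, Finset.card_univ, Fintype.card_fin,
        smul_eq_mul]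
      exact Nat.mul_le_mul_left _ hrk
    have h2 : Module.finrank k (Fin A × Fin d × Fin B × Fin d → k) = A * d * (B * d) := by
      rw [Module.finrank_fintype_fun_eq_card, Fintype.card_prod, Fintype.card_prod,
        Fintype.card_prod, Fintype.card_fin, Fintype.card_fin, Fintype.card_fin]
      ring
    rw [h2]
    refine lt_of_le_of_lt h1 ?_
    rw [hN]
    exact hlt
  obtain ⟨a, ha, ha0⟩ := (Submodule.ne_bot_iff _).1 hkerne
  refine ⟨a, ha0, ?_⟩
  intro m hm
  rw [LinearMap.mem_ker, Fintype.linearCombination_apply] at ha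
  have h1 := congrFun ha ⟨m, hm⟩
  have h2 : ((∑ i, a i • g i) ⟨m, hm⟩ : F2 D.mu e N).1 = ∑ i, a i • (G i).coeff m := by
    rw [Finset.sum_apply, AddSubmonoidClass.coe_finsetSum]
    refine Finset.sum_congr rfl fun i _ => ?_
    rw [hgd]
    rfl
  have h3 : (Psi D.mu Del r a).coeff m = ∑ i, a i • (G i).coeff m := by
    unfold Psi
    rw [finsetSum_coeff]
    refine Finset.sum_congr rfl fun i _ => ?_
    rw [hG, mul_assoc, mul_assoc, coeff_C_mul, Algebra.smul_def]
    simp only [mul_assoc]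
  rw [h3, ← h2, h1]
  rfl

end Pool.Agent.H4.CST
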